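import Pool.Agent.R882.TLog

/-!
# Effective nonvanishing for the images of nondegenerate pairs

Let `V` be a component, of dimension `n`, of the set of common zeros in the torus of a system `f` of
Laurent polynomials which is nondegenerate in the sense of Khovanskii, with arbitrary Newton
polytopes, and let `S` be any set of integral vectors: the directions of the boundary. Let `D` be the
divisor on `V` (more precisely, on all models of `V`, for example on the closure of `V` in a suitable
toric variety) whose components are the prime divisors `P` with `ord_P(x) ∈ S`. Complements of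
hypersurfaces `h = 0` are included: add the variable `y` and the equation `y = h`. Let `u`,
`w 1, ..., w N` be integral vectors such that `u` and the `u + M w j` are in the set `F` of the
vectors which satisfy `⟨u, v⟩ ≥ ∑ l, min ⟨supp (f l), v⟩` for all `v`, and even
`⟨u, v⟩ ≥ 1 + ∑ l, min ⟨supp (f l), v⟩` for `v ∉ S`, `v ≠ 0`. (If `S` consists of all vectors then `F`
is the Minkowski sum of the Newton polytopes; if `S` is empty it is the Fine interior.) Let `V'` be
the image of `V` under the monomials `t j = x ^ w j`, and `d = dim V'`.

Let `V ⇢ W` be a dominant rational map of finite degree `r`. It is arbitrary: not a quotient by a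
group, not related to the torus, and its ramification and the divisors which it contracts are
arbitrary. Let `D_W` be a reduced divisor which contains the image of `D`: a place of `ℂ(V)` without
centre on `V - D` lies over a place without centre on `W - D_W`.

* Suppose that `V` is birational to its image in `W × V'`. If `r ≤ M + 1` then `K_W + D_W` has a
  section. If `2 r ≤ M + 1` then `κ(K_W + D_W) ≥ d`; in particular `K_W + D_W` is big if `d = n`.
* The same is true with the degree over `W` of the image `W'` of `V` in `W × V'` for `r`, if the trace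
  on `W'` of some section of `K_V + D` twisted by `-M` is not zero.
* If the degree of `V ⇢ V'` is a prime number then the first assertion (with `d = n`) holds for all
  `W`, except for those such that `V ⇢ W` factors through `V ⇢ V'`.

The set `Bd` of the places of `ℂ(W)` without centre on `W - D_W` describes `D_W` on all models. So all
log canonical pairs `(X, Δ)` such that `X` is birational to such a `W` and `Δ` has coefficient `1` at
the prime divisors of `X` which are in `Bd` satisfy nonvanishing, `κ(K_X + Δ) ≥ 0`; it is not assumed
that `K_X + Δ` is nef.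

Proof. The forms `x ^ u Res` are sections of `K_V + D`: on logarithmic vector fields the residue form
has order at least `-∑ l, min ⟨supp (f l), v⟩` at a prime divisor with `ord(x) = v`, by
nondegeneracy. The traces on `W` of the forms `A(t) x ^ u Res`, where `A` is a polynomial of degree at
most `M`, are sections of `K_W + D_W`. Since `t` separates the points of the fibres of `W' → W`, one
of these traces is not zero if `r ≤ M + 1`, and the ratios generate a field of transcendence degree
at least `d` if `2 r ≤ M + 1` (`sep_coord`, `exists_ratios_d` in `Pool/Agent/R882/TRat.lean`).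
-/

set_option autoImplicit false
set_option linter.overlappingInstances false
set_option maxHeartbeats 1000000

open FF Module Pool.Agent Pool.Agent.W602.GT Pool.Agent.R885

namespace Pool.Agent.Results.MP_bc213e_ag.ImagesOfPairs

section

variable {K : Type} [Field K] [Algebra ℂ K]

/-- The Laurent polynomials `f l` are nondegenerate: the initial parts `ini v (f l)` have linearly
independent logarithmic gradients at all their common zeros in the torus. -/
def Nondegenerate {r q : ℕ} (f : Fin q → (Fin r → ℤ) →₀ ℂ) : Prop :=
  ∀ v : Fin r → ℤ, ∀ c : Fin r → ℂ, (∀ i, c i ≠ 0) → (∀ l, ev c (ini v (f l)) = 0) →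
    LinearIndependent ℂ fun l => gr c (ini v (f l))

/-- `x` is the generic point of a subvariety, with function field `K`, of the set of common zeros
of the `f l` in the torus `(ℂ^*) ^ r`. -/
def IsGenericPoint {r q : ℕ} (f : Fin q → (Fin r → ℤ) →₀ ℂ) (x : Fin r → K) : Prop :=
  (∀ i, x i ≠ 0) ∧ (∀ l, ev x (f l) = 0) ∧ IntermediateField.adjoin ℂ (Set.range x) = ⊤

/-- The integral vector `u` satisfies the inequalities of the Minkowski sum of the Newton polytopes
of the `f l` for all directions `v`, and those of the Fine interior for the directions which are not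
in `S`. -/
def InPolytope {r q : ℕ} (S : Set (Fin r → ℤ)) (f : Fin q → (Fin r → ℤ) →₀ ℂ)
    (u : Fin r → ℤ) : Prop :=
  ∀ v : Fin r → ℤ, v ≠ 0 → ∑ l, mn v (f l) ≤ u ⬝ᵥ v ∧ (v ∉ S → 1 + ∑ l, mn v (f l) ≤ u ⬝ᵥ v)

/-- The place `P` is in the boundary: the vector of the orders of the coordinates is in `S`. -/
def Boundary {r : ℕ} (S : Set (Fin r → ℤ)) (x : Fin r → K) (P : Place ℂ K) : Prop :=
  (fun i => P.ord (x i)) ∈ S

/-- The form `ω` is a section of `K_V + D - M H` on all models of `V`, where `H` is the pullback of
the hyperplane class under the map given by `1, t 1, ..., t N`: its products with the monomials of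
degree at most `M` in the `t j` have at most logarithmic poles along all prime divisors, and no poles
along those which are not in the boundary `BK`. -/
def IsTwisted {N : ℕ} (n M : ℕ) (BK : Place ℂ K → Prop) (t : Fin N → K)
    (ω : (Fin n → Derivation ℂ K K) → K) : Prop :=
  IsPluri 1 ω ∧ ∀ a : Fin N → ℕ, ∑ j, a j ≤ M → ∀ P : Place ℂ K, Divisorial n P →
    LogAt P (fun D => (∏ j, t j ^ a j) * ω D) ∧
      (¬ BK P → RegAt P (fun D => (∏ j, t j ^ a j) * ω D))

/-- The form `ω` on `V` has a nonzero trace on the variety with the function field `F`: its value on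
the extensions to `K` of some derivations of `F` has a nonzero trace. -/
def TraceNe {n : ℕ} (ω : (Fin n → Derivation ℂ K K) → K) (F : IntermediateField ℂ K) : Prop :=
  ∃ (D : Fin n → Derivation ℂ F F) (D' : Fin n → Derivation ℂ K K),
    (∀ i g, D' i (algebraMap F K g) = algebraMap F K (D i g)) ∧
    Algebra.trace F K (ω D') ≠ 0

end

/-- `K_W + D_W` has a nonzero section: a canonical form with at most logarithmic poles which is
regular at the prime divisors that are not in the boundary. -/
def LogGenusPositive (L : Type) [Field L] [Algebra ℂ L] (n : ℕ) (Bd : Place ℂ L → Prop) : Prop :=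
  ∃ ω : (Fin n → Derivation ℂ L L) → L, LogSec ℂ L n 1 Bd ω ∧ ∃ D, ω D ≠ 0

/-- **Images of nondegenerate pairs.** Let `V` be a component, of dimension `n`, of the set of common
zeros of a nondegenerate system `f`, with function field `K` and generic point `x`, and `S` a set of
integral vectors. Let `u` and the `u + M w j` be in the polytope, with the stronger inequalities for
the directions not in `S`, `t j` the monomial with the exponent `w j`, and `d` the transcendence
degree of `ℂ(t)`. Let `V ⇢ W` be a dominant rational map of finite degree, `L` the function field of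
`W`, and `Bd` a set of places of `L` which contains all places below the places of the boundary of `V`.
(1) If `K = L(t)` then `K_W + D_W` has a section if `[K : L] ≤ M + 1`, and its Kodaira dimension is at
least `d` if `2 [K : L] ≤ M + 1`. (2) The same holds with `[L(t) : L]`, if some twisted form on `V` has
a nonzero trace on the variety with the function field `L(t)`. (3) If `[K : ℂ(t)]` is a prime number
and `L` is not contained in `ℂ(t)`, then the conclusion of (1) holds. -/
theorem result {n q N M d : ℕ} (hM : 1 ≤ M) {f : Fin q → (Fin (n + q) → ℤ) →₀ ℂ}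
    (hf : Nondegenerate f) {K : Type} [Field K] [Algebra ℂ K] {x : Fin (n + q) → K}
    (hx : IsGenericPoint f x) (hK : Algebra.trdeg ℂ K = (n : ℕ)) (S : Set (Fin (n + q) → ℤ))
    {u : Fin (n + q) → ℤ} {w : Fin N → Fin (n + q) → ℤ} (hu : InPolytope S f u)
    (hw : ∀ j, InPolytope S f (u + (M : ℤ) • w j)) {t : Fin N → K}
    (ht : ∀ j, t j = R885.mono x (w j))
    (hd : Algebra.trdeg ℂ (IntermediateField.adjoin ℂ (Set.range t)) = (d : ℕ))
    (L : Type) [Field L] [Algebra ℂ L] [Algebra L K] [IsScalarTower ℂ L K]
    [FiniteDimensional L K] (Bd : Place ℂ L → Prop)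
    (hBd : ∀ (P : Place ℂ L) (Q : Place ℂ K) (e : ℕ), Over Q P e → Boundary S x Q → Bd P) :
    (IntermediateField.adjoin L (Set.range t) = ⊤ →
      (Module.finrank L K ≤ M + 1 → LogGenusPositive L n Bd) ∧
      (2 * Module.finrank L K ≤ M + 1 → KodGe ℂ L n Bd d)) ∧
    (∀ ω : (Fin n → Derivation ℂ K K) → K, IsTwisted n M (Boundary S x) t ω →
      TraceNe ω ((IntermediateField.adjoin L (Set.range t)).restrictScalars ℂ) →
      (Module.finrank L (IntermediateField.adjoin L (Set.range t)) ≤ M + 1 →
        LogGenusPositive L n Bd) ∧
      (2 * Module.finrank L (IntermediateField.adjoin L (Set.range t)) ≤ M + 1 →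
        KodGe ℂ L n Bd d)) ∧
    ((Module.finrank (IntermediateField.adjoin ℂ (Set.range t)) K).Prime →
      (∃ g : L, algebraMap L K g ∉ IntermediateField.adjoin ℂ (Set.range t)) →
      (Module.finrank L K ≤ M + 1 → LogGenusPositive L n Bd) ∧
      (2 * Module.finrank L K ≤ M + 1 → KodGe ℂ L n Bd d)) := by
  classical
  have hess : Algebra.EssFiniteType ℂ K := by
    rw [← IntermediateField.fg_top_iff, ← hx.2.2]
    exact ⟨Finset.univ.image x, by rw [Finset.coe_image, Finset.coe_univ, Set.image_univ]⟩
  have e : Fin q ⊕ Fin n ≃ Fin (n + q) := Fintype.equivOfCardEq (by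
    rw [Fintype.card_sum, Fintype.card_fin, Fintype.card_fin, Fintype.card_fin, add_comm])
  have key : ∀ ω : (Fin n → Derivation ℂ K K) → K, IsTwisted n M (Boundary S x) t ω →
      TraceNe ω ((IntermediateField.adjoin L (Set.range t)).restrictScalars ℂ) →
      (Module.finrank L (IntermediateField.adjoin L (Set.range t)) ≤ M + 1 →
        LogGenusPositive L n Bd) ∧
      (2 * Module.finrank L (IntermediateField.adjoin L (Set.range t)) ≤ M + 1 →
        KodGe ℂ L n Bd d) := by
    intro ω hω htr
    have h1 := Pool.Agent.R882.LT.core_log (L := L) (BK := Boundary S x) (BL := Bd) hK hd hBd rfl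
      (ω := ω) hω htr
    refine ⟨fun hr => ?_, fun hr => Pool.Agent.R882.LT.kodGe_log (h1.2 hr)⟩
    obtain ⟨η, hη, hη', hne⟩ := h1.1 hr
    exact ⟨η, ⟨hη, fun P hP => (hη' P hP).1, fun P hP => (hη' P hP).2⟩, hne⟩
  obtain ⟨C0, h0, hsec, hne⟩ := Pool.Agent.R882.LT.exists_log_res hK hx.1 hx.2.2 e hx.2.1
    (fun v => hf v) S
  have htw : IsTwisted n M (Boundary S x) t (fun D => R885.mono x u * Om e x f C0 D) := by
    refine ⟨?_, fun a ha P hP => ?_⟩
    · intro B D
      have h1 := om_pluri e x f C0 1 B D
      change Om e x f C0 (fun i => ∑ j, B i j • D j) ^ 1 = B.det ^ 1 * Om e x f C0 D ^ 1 at h1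
      change R885.mono x u * Om e x f C0 (fun i => ∑ j, B i j • D j) =
        B.det ^ 1 * (R885.mono x u * Om e x f C0 D)
      rw [pow_one, pow_one, pow_one] at h1
      rw [h1]
      ring
    · have h1 := hsec _ (Pool.Agent.R882.LT.inPoly_comb hM hu hw a ha) P
      have h2 : (fun D : Fin n → Derivation ℂ K K => (∏ j, t j ^ a j) *
          (R885.mono x u * Om e x f C0 D)) =
          fun D => R885.mono x (u + ∑ j, (a j : ℤ) • w j) * Om e x f C0 D := by
        funext D
        simp only [ht]
        rw [Pool.Agent.R882.LT.mono_comb hx.1, ← mul_assoc, mul_comm (R885.mono x _)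
          (R885.mono x u), ← R885.mono_add hx.1]
      rw [h2]
      exact h1
  have htop : IntermediateField.adjoin L (Set.range t) = ⊤ →
      (Module.finrank L K ≤ M + 1 → LogGenusPositive L n Bd) ∧
      (2 * Module.finrank L K ≤ M + 1 → KodGe ℂ L n Bd d) := by
    intro h
    have h1 : (IntermediateField.adjoin L (Set.range t)).restrictScalars ℂ = ⊤ := by
      rw [h]
      rfl
    have h2 := key _ htw (Pool.Agent.R882.LT.traceNe_top hK
      (fun Z hZ D0 hD0 => mul_ne_zero (R885.mono_ne hx.1 _) (hne Z hZ D0 hD0)) h1)
    rw [h, IntermediateField.finrank_top'] at h2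
    exact h2
  refine ⟨htop, key, fun hp hg => htop ?_⟩
  obtain ⟨g, hg⟩ := hg
  have hle : IntermediateField.adjoin ℂ (Set.range t) ≤
      (IntermediateField.adjoin L (Set.range t)).restrictScalars ℂ := by
    rw [IntermediateField.adjoin_le_iff]
    exact IntermediateField.subset_adjoin L _
  have hsimple := IntermediateField.isSimpleOrder_of_finrank_prime
    (IntermediateField.adjoin ℂ (Set.range t)) K hp
  rcases hsimple.eq_bot_or_eq_top (IntermediateField.extendScalars hle) with h1 | h1
  · exfalso
    have h2 : algebraMap L K g ∈ IntermediateField.extendScalars hle := by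
      rw [IntermediateField.mem_extendScalars]
      exact (IntermediateField.adjoin L (Set.range t)).algebraMap_mem g
    rw [h1, IntermediateField.mem_bot] at h2
    obtain ⟨y, hy⟩ := h2
    apply hg
    rw [← hy]
    exact y.2
  · rw [eq_top_iff]
    intro y _
    have h2 : y ∈ IntermediateField.extendScalars hle := by
      rw [h1]
      trivial
    rw [IntermediateField.mem_extendScalars] at h2
    exact h2

end Pool.Agent.Results.MP_bc213e_ag.ImagesOfPairs
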