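import Pool.Agent.R887.CorD

/-!
The numerical dimension of log canonical pairs is bounded by the growth of the degrees of the
multi-valued maps from a fixed variety.
-/

set_option autoImplicit false

open FF Pool.Agent.W602.GT Pool.Agent.Y172 Pool.Agent.R887

/-- Let `(X, Δ)` be a projective log canonical pair of dimension `n`, with generic point `y`, let
`X'` be a normal projective variety of dimension `n`, with generic point `y'`, `S` a finite set of
prime divisors of `X'`, and `1 ≤ j ≤ n`. Suppose that for all `ε > 0` there is a multi-valued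
rational map `X' ← X'' → X`, that is a variety `X''` with a generically finite rational map `p` to
`X'`, unramified over the prime divisors of `X'` which are not in `S`, and a dominant rational map
`f` to `X`, with `f^* (K_X + Δ) ≤ K_X''` over the prime divisors of `X'` which are not in `S`, such
that the intersection number of `n - j` pull backs by `f` of hyperplane sections of `X` and `j` pull
backs by `p` of hyperplane sections of `X'` is at most `ε deg f`. Then the numerical dimension of
`K_X + Δ` is less than `j`. -/
theorem Pool.Agent.Results.MP_bc213e_ag.MultivaluedNumericalDim.result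
    {K K' : Type} [Field K] [Algebra ℂ K] [Field K'] [Algebra ℂ K'] {N N' n : ℕ}
    {y : Fin (N + 1) → K} {y' : Fin (N' + 1) → K'} (hy : NormalModel y) (hy' : NormalModel y')
    (hn : Algebra.trdeg ℂ K = n) (hn' : Algebra.trdeg ℂ K' = n) {Δ : Place ℂ K → ℚ}
    (hLC : LogCanonical y n Δ) {j : ℕ} (hj0 : 1 ≤ j) (hj : j ≤ n) {S : Set (Place ℂ K')}
    (hS : S.Finite)
    (h : ∀ ε : ℝ, 0 < ε → ∃ (L : Type) (_ : Field L) (_ : Algebra ℂ L) (φ : K →ₐ[ℂ] L)
      (ψ : K' →ₐ[ℂ] L), FiniteDimensional ψ.fieldRange L ∧ UnramifiedOutside ψ y' S ∧
        MultiPullBackLe φ ψ y n Δ y' S ∧ MultiDegreeLe φ ψ y y' (n - j) j ε) :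
    NumDimLt y n Δ j :=
  numdim2 hy hy' hn hn' (by omega) hLC hj hS h
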