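import Pool.Agent.R887.GapD

/-!
Numerical nonvanishing for the nef log canonical pairs which are dominated by one multi-valued
rational map of large degree from a fixed variety: an upper bound for all positive intersection
numbers, and a gap for the first one.
-/

set_option autoImplicit false

open FF Pool.Agent.W602.GT Pool.Agent.Y172 Pool.Agent.R887

/-- Let `X'` be a normal projective variety of dimension `n ≥ 1`, with generic point `y'`, and `S` a
finite set of prime divisors of `X'`. There is a constant `C`, which depends only on `X'` and `S`,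
such that the following holds for all log canonical pairs `(X, Δ)` of dimension `n`, with generic
point `y` and a `ℚ`-divisor `Δ`, and all multi-valued rational maps `X' ← X'' → X`: a variety `X''`
with a generically finite rational map `p` to `X'`, unramified over the prime divisors of `X'` which
are not in `S`, and a dominant rational map `f` to `X` such that `f^* (K_X + Δ) ≤ K_X''` over these
prime divisors.

(1) If the intersection number `(f^* H)^(n-j) (p^* H')^j`, `H` and `H'` being hyperplane sections of
`X` and `X'`, is at most `c deg f`, then the positive product `⟨(K_X + Δ)^j⟩ H^(n-j)` is at most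
`c C^j`.

(2) Suppose that `K_X + Δ` is nef, and that `r (K_X + Δ)` is Cartier, `r ≥ 1`. If `K_X + Δ` is not
numerically trivial (its numerical dimension is not zero), then the intersection number
`(f^* H)^(n-1) (p^* H')` is at least `deg f / (C r)`: it is not at most `c deg f` if
`c < 1 / (C r)`. -/
theorem Pool.Agent.Results.MP_bc213e_ag.OneMapNonvanishing.result
    {K' : Type} [Field K'] [Algebra ℂ K'] {N' n : ℕ} {y' : Fin (N' + 1) → K'}
    (hy' : NormalModel y') (hn' : Algebra.trdeg ℂ K' = n) (hn0 : 0 < n) {S : Set (Place ℂ K')}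
    (hS : S.Finite) :
    ∃ C : ℕ, 0 < C ∧ ∀ (K : Type) [Field K] [Algebra ℂ K] (N : ℕ)
      (y : Fin (N + 1) → K) (Δ : Place ℂ K → ℚ), NormalModel y →
      Algebra.trdeg ℂ K = n → LogCanonical y n Δ →
      ∀ (L : Type) [Field L] [Algebra ℂ L] (φ : K →ₐ[ℂ] L) (ψ : K' →ₐ[ℂ] L),
        FiniteDimensional ψ.fieldRange L → UnramifiedOutside ψ y' S →
        MultiPullBackLe φ ψ y n Δ y' S →
        (∀ (j : ℕ) (c : ℝ), j ≤ n → MultiDegreeLe φ ψ y y' (n - j) j c →
          PositiveProductLe y n Δ j (c * C ^ j)) ∧
        ∀ r : ℕ, 1 ≤ r → CartierIndex y n Δ r → LogNef y n Δ → ¬ NumDimLt y n Δ 1 →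
          ∀ c : ℝ, c < 1 / (C * r) → ¬ MultiDegreeLe φ ψ y y' (n - 1) 1 c := by
  obtain ⟨C, hC, h⟩ := gap_one_map hy' hn' hn0 hS
  refine ⟨C, hC, fun K _ _ N y Δ hy hn hlc L _ _ φ ψ hψ hun hpb => ⟨fun j c hj hc => ?_, ?_⟩⟩
  · exact ((h hy hn hlc φ ψ hψ hun hpb).1 j c hj hc).2
  · intro r hr hcar hnef hnum c hc hdeg
    refine hnum ((h hy hn hlc φ ψ hψ hun hpb).2 r c hr hcar hnef hdeg ?_)
    have h1 : (0 : ℝ) < C * r := by
      have h2 : (0 : ℝ) < C := by exact_mod_cast hC
      have h3 : (0 : ℝ) < r := by exact_mod_cast hr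
      positivity
    rwa [lt_div_iff₀ h1] at hc
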